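import Pool.Agent.OHG.Main

namespace Pool.Agent.Results.MP_e7cc07_co.LargeUniformity

open Pool.Agent.OHG

/-- For m at least 2 and r at least the threshold of m (5 for m = 2, and m^(m+2) + m otherwise),
the equality f(n, r, p, 1) = (n choose p) - b(H(n, r), p) holds for p = m and for p = r - m,
for every n. -/
theorem result (n r p m : ℕ) (hm : 2 ≤ m) (hp : p = m ∨ p + m = r) (hr : threshold m ≤ r) :
    f n r p 1 + b n r p = n.choose p :=
  main n r p m hm hp hr

end Pool.Agent.Results.MP_e7cc07_co.LargeUniformity
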